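import Pool.Agent.H46.Dg.C

theorem Pool.Agent.Results.MP_fcf9e8_nt.NearPower.result (b : ℕ) (hb : 2 ≤ b) :
    ∃ c C : ℝ, 0 < c ∧ 0 < C ∧ ∀ N : ℕ, 16 ≤ N → ∀ γ : ℝ,
      ∃ S : Finset ℕ, S.Nonempty ∧ ∑ d ∈ S, b ^ d ≤ N ∧
        |γ * (∑ d ∈ S, b ^ d : ℕ) - round (γ * (∑ d ∈ S, b ^ d : ℕ))| ≤
          C * Real.exp (-(c * Real.log N / Real.log (Real.log N) ^ 2)) := by
  obtain ⟨c, C, hc, hC, h⟩ := Pool.Agent.H46.Dg.main b hb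
  refine ⟨c, C, hc, hC, fun N hN γ => ?_⟩
  obtain ⟨S, h1, h2, z, hz⟩ := h N hN γ
  exact ⟨S, h1, h2, (round_le _ z).trans hz⟩
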